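import Pool.Agent.H14.Ent4

set_option autoImplicit false
open Finset

namespace Pool.Agent.Results.MP_3f3e0f_an.Power

/-- Every entrywise preserver of real-rootedness is zero or a power function `c t^p` with `p ≥ 1`. -/
theorem result (F : ℝ → ℝ) (hF : ∀ t, 0 ≤ t → 0 ≤ F t) (h0 : F 0 = 0)
    (h : ∀ (n : ℕ) (a : ℕ → ℝ), (∀ k ≤ n, 0 < a k) →
      (∀ z : ℂ, ∑ k ∈ range (n + 1), (a k : ℂ) * z ^ k = 0 → z.im = 0) →
      (∀ k ≤ n, F (a k) = 0) ∨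
        ∀ z : ℂ, ∑ k ∈ range (n + 1), (F (a k) : ℂ) * z ^ k = 0 → z.im = 0) :
    (∀ t, 0 ≤ t → F t = 0) ∨ ∃ c p : ℝ, 0 < c ∧ 1 ≤ p ∧ ∀ t, 0 ≤ t → F t = c * t ^ p := by
  rcases (Pool.Agent.H14.Ent.Pres.mk (fun t ht => hF t ht.le) h).final with h1 | ⟨c, p, hc, hp, h1⟩
  · exact Or.inl fun t ht => ht.eq_or_lt.elim (fun e => e ▸ h0) (h1 t)
  · refine Or.inr ⟨c, p, hc, hp, fun t ht => ht.eq_or_lt.elim (fun e => ?_) (h1 t)⟩
    rw [← e, h0, Real.zero_rpow (by linarith), mul_zero]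

end Pool.Agent.Results.MP_3f3e0f_an.Power
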